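import Mathlib
import Pool.Agent.H493R3.Digits

/-!
# Almost all numbers satisfy Weyl's criterion for all integer bases
-/

set_option autoImplicit false

open MeasureTheory Filter Topology Set

namespace Pool.Agent.Q165.NU

open Pool.Agent.H493R3

/-- the normalised Weyl sum -/
noncomputable def Sn (b h : ℕ) (N : ℕ) (y : ℝ) : ℝ :=
  ‖∑ j ∈ Finset.range N, ee (h * (y * (b : ℝ) ^ j))‖ / N

theorem Sn_nonneg (b h N : ℕ) (y : ℝ) : 0 ≤ Sn b h N y := by
  unfold Sn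
  positivity

theorem continuous_ee : Continuous ee := by
  unfold ee
  fun_prop

theorem continuous_Sn (b h N : ℕ) : Continuous (Sn b h N) := by
  unfold Sn
  have := continuous_ee
  fun_prop

theorem integral_ee {n : ℤ} (hn : n ≠ 0) : ∫ y in (0 : ℝ)..1, ee (n * y) = 0 := by
  have hc : (2 * Real.pi * n * Complex.I : ℂ) ≠ 0 := by
    have h1 : (n : ℂ) ≠ 0 := by exact_mod_cast hn
    have h2 : (Real.pi : ℂ) ≠ 0 := by exact_mod_cast Real.pi_ne_zero
    simp [h1, h2]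
  have h1 : ∀ y : ℝ, ee (n * y) = Complex.exp ((2 * Real.pi * n * Complex.I) * y) := by
    intro y
    unfold ee
    congr 1
    push_cast
    ring
  simp only [h1]
  rw [integral_exp_mul_complex hc]
  have h2 : (2 * Real.pi * n * Complex.I : ℂ) * ((1 : ℝ) : ℂ) = n * (2 * Real.pi * Complex.I) := by
    push_cast
    ring
  rw [h2, Complex.exp_int_mul_two_pi_mul_I]
  simp

/-- second moment -/
theorem second_moment (b h : ℕ) (hb : 2 ≤ b) (hh : 1 ≤ h) (N : ℕ) :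
    ∫ y in (0 : ℝ)..1, ‖∑ j ∈ Finset.range N, ee (h * (y * (b : ℝ) ^ j))‖ ^ 2 = N := by
  have h1 : ∀ y : ℝ, ((‖∑ j ∈ Finset.range N, ee (h * (y * (b : ℝ) ^ j))‖ ^ 2 : ℝ) : ℂ) =
      ∑ j ∈ Finset.range N, ∑ k ∈ Finset.range N,
        ee (((h * b ^ j - h * b ^ k : ℤ)) * y) := by
    intro y
    rw [← Complex.normSq_eq_norm_sq, ← Complex.mul_conj, map_sum, Finset.sum_mul_sum]
    refine Finset.sum_congr rfl fun j _ => Finset.sum_congr rfl fun k _ => ?_
    rw [← ee_neg, ← ee_add]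
    congr 1
    push_cast
    ring
  have hcont := continuous_ee
  have h2 : ((∫ y in (0 : ℝ)..1, ‖∑ j ∈ Finset.range N, ee (h * (y * (b : ℝ) ^ j))‖ ^ 2 : ℝ) : ℂ) =
      ((N : ℝ) : ℂ) := by
    rw [← intervalIntegral.integral_ofReal]
    simp_rw [h1]
    rw [intervalIntegral.integral_finsetSum]
    swap
    · intro j _
      exact Continuous.intervalIntegrable (by fun_prop) _ _
    have h3 : ∀ j ∈ Finset.range N, ∫ y in (0 : ℝ)..1, ∑ k ∈ Finset.range N,
        ee (((h * b ^ j - h * b ^ k : ℤ)) * y) = 1 := by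
      intro j hj
      rw [intervalIntegral.integral_finsetSum]
      swap
      · intro k _
        exact Continuous.intervalIntegrable (by fun_prop) _ _
      rw [Finset.sum_eq_single j]
      · have h0 : ∀ y : ℝ, ee (((h * b ^ j - h * b ^ j : ℤ)) * y) = 1 := by
          intro y
          rw [sub_self]
          have := ee_int 0
          simpa using this
        simp only [h0]
        simp
      · intro k _ hkj
        refine integral_ee ?_
        intro h0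
        have h4 : (h : ℤ) * b ^ j = h * b ^ k := by linarith
        have h5 : h * b ^ j = h * b ^ k := by exact_mod_cast h4
        have h6 := Nat.eq_of_mul_eq_mul_left (by omega) h5
        exact hkj (Nat.pow_right_injective hb h6).symm
      · intro h0
        exact absurd hj h0
    rw [Finset.sum_congr rfl h3, Finset.sum_const, Finset.card_range, nsmul_eq_mul]
    push_cast
    ring
  exact_mod_cast h2

theorem Sn_sq (b h : ℕ) (hb : 2 ≤ b) (hh : 1 ≤ h) (n : ℕ) (hn : 1 ≤ n) :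
    ∫⁻ y in Ico (0 : ℝ) 1, ENNReal.ofReal (Sn b h (n ^ 2) y ^ 2) = ENNReal.ofReal (1 / (n : ℝ) ^ 2) := by
  have hc : Continuous fun y => Sn b h (n ^ 2) y ^ 2 := (continuous_Sn b h (n ^ 2)).pow 2
  rw [restrict_Ico_eq_restrict_Ioc, ← ofReal_integral_eq_lintegral_ofReal]
  · congr 1
    rw [← intervalIntegral.integral_of_le zero_le_one]
    have h1 := second_moment b h hb hh (n ^ 2)
    have h2 : ∀ y, Sn b h (n ^ 2) y ^ 2 =
        ‖∑ j ∈ Finset.range (n ^ 2), ee (h * (y * (b : ℝ) ^ j))‖ ^ 2 / ((n : ℝ) ^ 2) ^ 2 := by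
      intro y
      unfold Sn
      rw [div_pow]
      push_cast
      rfl
    simp only [h2]
    rw [intervalIntegral.integral_div, h1]
    have hn' : (n : ℝ) ≠ 0 := by positivity
    push_cast
    field_simp
  · exact (hc.continuousOn.integrableOn_Icc).mono_set Ioc_subset_Icc_self
  · exact Eventually.of_forall fun y => by positivity

theorem ae_sq (b h : ℕ) (hb : 2 ≤ b) (hh : 1 ≤ h) :
    ∀ᵐ y ∂(volume.restrict (Ico (0 : ℝ) 1)),
      Tendsto (fun n : ℕ => Sn b h ((n + 1) ^ 2) y) atTop (𝓝 0) := by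
  have hm : ∀ n : ℕ, AEMeasurable (fun y => ENNReal.ofReal (Sn b h ((n + 1) ^ 2) y ^ 2))
      (volume.restrict (Ico (0 : ℝ) 1)) := fun n =>
    ((continuous_Sn b h _).pow 2).measurable.ennreal_ofReal.aemeasurable
  have h1 : ∫⁻ y in Ico (0 : ℝ) 1, ∑' n : ℕ, ENNReal.ofReal (Sn b h ((n + 1) ^ 2) y ^ 2) ≠ ⊤ := by
    rw [lintegral_tsum hm]
    have h2 : ∀ n : ℕ, ∫⁻ y in Ico (0 : ℝ) 1, ENNReal.ofReal (Sn b h ((n + 1) ^ 2) y ^ 2) =
        ENNReal.ofReal (1 / ((n + 1 : ℕ) : ℝ) ^ 2) := fun n => Sn_sq b h hb hh (n + 1) (by omega)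
    simp only [h2]
    have hs : Summable fun n : ℕ => 1 / ((n + 1 : ℕ) : ℝ) ^ 2 :=
      (summable_nat_add_iff 1).2 (Real.summable_one_div_nat_pow.2 one_lt_two)
    rw [← ENNReal.ofReal_tsum_of_nonneg (fun n => by positivity) hs]
    exact ENNReal.ofReal_ne_top
  have h3 := ae_lt_top' (AEMeasurable.ennreal_tsum hm) h1
  filter_upwards [h3] with y hy
  have h4 := ENNReal.tendsto_atTop_zero_of_tsum_ne_top hy.ne
  have h5 : Tendsto (fun n : ℕ => Sn b h ((n + 1) ^ 2) y ^ 2) atTop (𝓝 0) := by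
    have h6 := (ENNReal.tendsto_toReal ENNReal.zero_ne_top).comp h4
    simp only [ENNReal.toReal_zero] at h6
    refine h6.congr fun n => ?_
    show (ENNReal.ofReal _).toReal = _
    rw [ENNReal.toReal_ofReal (by positivity)]
  have h7 := h5.sqrt
  rw [Real.sqrt_zero] at h7
  refine h7.congr fun n => ?_
  rw [Real.sqrt_sq (Sn_nonneg _ _ _ _)]

theorem Sn_le (b h : ℕ) (y : ℝ) {n N : ℕ} (hn : 1 ≤ n) (h1 : n ^ 2 ≤ N) (h2 : N < (n + 1) ^ 2) :
    Sn b h N y ≤ Sn b h (n ^ 2) y + 2 / n := by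
  have hn0 : (0 : ℝ) < n := by exact_mod_cast hn
  have hN : (n : ℝ) ^ 2 ≤ N := by exact_mod_cast h1
  have hN0 : (0 : ℝ) < N := lt_of_lt_of_le (by positivity) hN
  have h3 : ‖∑ j ∈ Finset.range N, ee (h * (y * (b : ℝ) ^ j))‖ ≤
      ‖∑ j ∈ Finset.range (n ^ 2), ee (h * (y * (b : ℝ) ^ j))‖ + 2 * n := by
    rw [← Finset.sum_range_add_sum_Ico _ h1]
    refine (norm_add_le _ _).trans (add_le_add le_rfl ?_)
    refine (norm_sum_le _ _).trans ?_
    have h4 : ∀ j ∈ Finset.Ico (n ^ 2) N, ‖ee (h * (y * (b : ℝ) ^ j))‖ ≤ 1 :=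
      fun j _ => (ee_norm _).le
    refine (Finset.sum_le_card_nsmul _ _ 1 h4).trans ?_
    rw [Nat.card_Ico, nsmul_eq_mul, mul_one]
    have h5 : N - n ^ 2 ≤ 2 * n := by
      have : (n + 1) ^ 2 = n ^ 2 + 2 * n + 1 := by ring
      omega
    exact_mod_cast h5
  unfold Sn
  push_cast
  calc ‖∑ j ∈ Finset.range N, ee (h * (y * (b : ℝ) ^ j))‖ / N
      ≤ (‖∑ j ∈ Finset.range (n ^ 2), ee (h * (y * (b : ℝ) ^ j))‖ + 2 * n) / N := by
        gcongr
    _ ≤ (‖∑ j ∈ Finset.range (n ^ 2), ee (h * (y * (b : ℝ) ^ j))‖ + 2 * n) / (n : ℝ) ^ 2 := by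
        gcongr
    _ = _ := by
        field_simp

theorem ae_weyl (b h : ℕ) (hb : 2 ≤ b) (hh : 1 ≤ h) :
    ∀ᵐ y ∂(volume.restrict (Ico (0 : ℝ) 1)), Tendsto (fun N : ℕ => Sn b h N y) atTop (𝓝 0) := by
  filter_upwards [ae_sq b h hb hh] with y hy
  have h1 : Tendsto (fun n : ℕ => Sn b h ((n + 1) ^ 2) y + 2 / ((n + 1 : ℕ) : ℝ)) atTop (𝓝 0) := by
    have h2 : Tendsto (fun n : ℕ => 2 / ((n + 1 : ℕ) : ℝ)) atTop (𝓝 0) :=
      (tendsto_add_atTop_iff_nat 1).2 (tendsto_const_div_atTop_nhds_zero_nat 2)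
    simpa using hy.add h2
  have h3 : Tendsto (fun N : ℕ => Nat.sqrt N - 1) atTop atTop := by
    rw [tendsto_atTop]
    intro C
    filter_upwards [eventually_ge_atTop ((C + 1) ^ 2)] with N hN
    have : C + 1 ≤ Nat.sqrt N := Nat.le_sqrt'.2 hN
    omega
  refine squeeze_zero' (Eventually.of_forall fun N => Sn_nonneg _ _ _ _) ?_ (h1.comp h3)
  filter_upwards [eventually_ge_atTop 1] with N hN
  have h4 : 1 ≤ Nat.sqrt N := Nat.le_sqrt'.2 (by simpa using hN)
  have h5 : Nat.sqrt N - 1 + 1 = Nat.sqrt N := by omega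
  simp only [Function.comp]
  rw [h5]
  exact Sn_le b h y h4 (Nat.sqrt_le' N) (Nat.lt_succ_sqrt' N)

/-- all bases and frequencies up to `κ + 2` -/
noncomputable def FF (κ N : ℕ) (y : ℝ) : ℝ :=
  ∑ b ∈ Finset.Icc 2 (κ + 2), ∑ h ∈ Finset.Icc 1 (κ + 2), Sn b h N y

theorem ae_FF (κ : ℕ) :
    ∀ᵐ y ∂(volume.restrict (Ico (0 : ℝ) 1)), Tendsto (fun N : ℕ => FF κ N y) atTop (𝓝 0) := by
  have h1 : ∀ᵐ y ∂(volume.restrict (Ico (0 : ℝ) 1)), ∀ b h : ℕ, 2 ≤ b → 1 ≤ h →
      Tendsto (fun N : ℕ => Sn b h N y) atTop (𝓝 0) := by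
    rw [ae_all_iff]
    intro b
    rw [ae_all_iff]
    intro h
    by_cases hb : 2 ≤ b
    · by_cases hh : 1 ≤ h
      · filter_upwards [ae_weyl b h hb hh] with y hy _ _
        exact hy
      · exact Eventually.of_forall fun y _ h2 => absurd h2 hh
    · exact Eventually.of_forall fun y h2 => absurd h2 hb
  filter_upwards [h1] with y hy
  have h2 : (0 : ℝ) = ∑ b ∈ Finset.Icc 2 (κ + 2), ∑ h ∈ Finset.Icc 1 (κ + 2), (0 : ℝ) := by simp
  rw [h2]
  unfold FF
  refine tendsto_finsetSum _ fun b hb => tendsto_finsetSum _ fun h hh => ?_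
  exact hy b h (Finset.mem_Icc.1 hb).1 (Finset.mem_Icc.1 hh).1

/-- exceptional sets -/
theorem exceptional (κ : ℕ) (δ ε : ℝ) (hδ : 0 < δ) (hε : 0 < ε) :
    ∃ (t : Set ℝ) (M : ℕ), volume t ≤ ENNReal.ofReal δ ∧ ∀ y ∈ Ico (0 : ℝ) 1, y ∉ t →
      ∀ N, M ≤ N → ∀ b h, 2 ≤ b → b ≤ κ + 2 → 1 ≤ h → h ≤ κ + 2 → Sn b h N y < ε := by
  have hm : ∀ N, StronglyMeasurable (FF κ N) := by
    intro N
    have : Continuous (FF κ N) := by
      unfold FF
      exact continuous_finsetSum _ fun b _ => continuous_finsetSum _ fun h _ => continuous_Sn b h N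
    exact this.stronglyMeasurable
  obtain ⟨t, ht, hμ, hu⟩ := tendstoUniformlyOn_of_ae_tendsto' hm stronglyMeasurable_const
    (ae_FF κ) hδ
  rw [Metric.tendstoUniformlyOn_iff] at hu
  obtain ⟨M, hM⟩ := eventually_atTop.1 (hu ε hε)
  refine ⟨t ∩ Ico (0 : ℝ) 1, M, ?_, fun y hy hyt N hN b h hb1 hb2 hh1 hh2 => ?_⟩
  · rwa [Measure.restrict_apply ht] at hμ
  · have h1 := hM N hN y fun h2 => hyt ⟨h2, hy⟩
    rw [Real.dist_eq, zero_sub, abs_neg] at h1
    refine lt_of_le_of_lt ?_ ((le_abs_self _).trans_lt h1)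
    unfold FF
    refine le_trans ?_ (Finset.single_le_sum (f := fun b => ∑ h ∈ Finset.Icc 1 (κ + 2), Sn b h N y)
      (fun b _ => Finset.sum_nonneg fun h _ => Sn_nonneg b h N y) (Finset.mem_Icc.2 ⟨hb1, hb2⟩))
    exact Finset.single_le_sum (f := fun h => Sn b h N y)
      (fun h _ => Sn_nonneg b h N y) (Finset.mem_Icc.2 ⟨hh1, hh2⟩)

/-- continuity -/
theorem Sn_lip (b h N : ℕ) (hb : 1 ≤ b) (y y' : ℝ) :
    Sn b h N y ≤ Sn b h N y' + 2 * Real.pi * h * (b : ℝ) ^ N * |y - y'| := by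
  rcases Nat.eq_zero_or_pos N with rfl | hN
  · simp only [Sn, Nat.cast_zero, div_zero, pow_zero, mul_one, zero_add]
    have := Real.pi_pos
    positivity
  have hN0 : (0 : ℝ) < N := by exact_mod_cast hN
  have hb1 : (1 : ℝ) ≤ b := by exact_mod_cast hb
  have hee : ∀ u v : ℝ, ‖ee u - ee v‖ ≤ 2 * Real.pi * |u - v| := by
    intro u v
    have h1 : ee u - ee v = ee v * (Complex.exp (Complex.I * ((2 * Real.pi * (u - v) : ℝ) : ℂ)) - 1) := by
      rw [mul_sub, mul_one]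
      congr 1
      unfold ee
      rw [← Complex.exp_add]
      congr 1
      push_cast
      ring
    rw [h1, norm_mul, ee_norm, one_mul]
    refine (Real.norm_exp_I_mul_ofReal_sub_one_le).trans ?_
    rw [Real.norm_eq_abs, abs_mul, abs_of_pos (by positivity : 0 < 2 * Real.pi)]
  have h1 : ‖∑ j ∈ Finset.range N, ee (h * (y * (b : ℝ) ^ j))‖ ≤
      ‖∑ j ∈ Finset.range N, ee (h * (y' * (b : ℝ) ^ j))‖ +
        N * (2 * Real.pi * h * (b : ℝ) ^ N * |y - y'|) := by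
    have h2 : ‖∑ j ∈ Finset.range N, ee (h * (y * (b : ℝ) ^ j)) -
        ∑ j ∈ Finset.range N, ee (h * (y' * (b : ℝ) ^ j))‖ ≤
        N * (2 * Real.pi * h * (b : ℝ) ^ N * |y - y'|) := by
      rw [← Finset.sum_sub_distrib]
      refine (norm_sum_le _ _).trans ?_
      have h3 : ∀ j ∈ Finset.range N, ‖ee (h * (y * (b : ℝ) ^ j)) - ee (h * (y' * (b : ℝ) ^ j))‖ ≤
          2 * Real.pi * h * (b : ℝ) ^ N * |y - y'| := by
        intro j hj
        refine (hee _ _).trans ?_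
        have h4 : (h : ℝ) * (y * (b : ℝ) ^ j) - h * (y' * (b : ℝ) ^ j) = h * (b : ℝ) ^ j * (y - y') := by
          ring
        have h5 : (0 : ℝ) ≤ h * (b : ℝ) ^ j := by positivity
        rw [h4, abs_mul, abs_of_nonneg h5]
        have h6 : (b : ℝ) ^ j ≤ (b : ℝ) ^ N := pow_le_pow_right₀ hb1 (Finset.mem_range.1 hj).le
        have hpi := Real.pi_pos
        calc 2 * Real.pi * (h * (b : ℝ) ^ j * |y - y'|) = (2 * Real.pi * h * |y - y'|) * (b : ℝ) ^ j := by
              ring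
          _ ≤ (2 * Real.pi * h * |y - y'|) * (b : ℝ) ^ N := by
              gcongr
          _ = _ := by ring
      refine (Finset.sum_le_card_nsmul _ _ _ h3).trans ?_
      rw [Finset.card_range, nsmul_eq_mul]
    have h7 := norm_sub_norm_le (∑ j ∈ Finset.range N, ee (h * (y * (b : ℝ) ^ j)))
      (∑ j ∈ Finset.range N, ee (h * (y' * (b : ℝ) ^ j)))
    linarith
  unfold Sn
  rw [div_le_iff₀ hN0, add_mul, div_mul_cancel₀ _ hN0.ne']
  linarith

end Pool.Agent.Q165.NU
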