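import Mathlib

/-!
# Killing a sparse set of binary digits
-/

set_option autoImplicit false

open MeasureTheory Filter Topology Set

namespace Pool.Agent.Q165.NU

/-- replace the binary digit with value `2 ^ -(m+1)` by zero -/
noncomputable def Z (m : ℕ) (y : ℝ) : ℝ :=
  if Int.fract (2 ^ m * y) < 1 / 2 then y else y - 1 / 2 ^ (m + 1)

theorem measurable_Z (m : ℕ) : Measurable (Z m) := by
  unfold Z
  refine Measurable.ite ?_ measurable_id (measurable_id.sub_const _)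
  exact measurableSet_lt ((measurable_const.mul measurable_id).fract) measurable_const

theorem Z_cases (m : ℕ) (y : ℝ) : Z m y = y ∨ Z m y = y - 1 / 2 ^ (m + 1) := by
  unfold Z
  split_ifs
  · exact Or.inl rfl
  · exact Or.inr rfl

theorem Z_le (m : ℕ) (y : ℝ) : Z m y ≤ y := by
  have : (0 : ℝ) < 1 / 2 ^ (m + 1) := by positivity
  rcases Z_cases m y with h | h <;> rw [h]
  linarith

theorem le_Z (m : ℕ) (y : ℝ) : y - 1 / 2 ^ (m + 1) ≤ Z m y := by
  have : (0 : ℝ) < 1 / 2 ^ (m + 1) := by positivity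
  rcases Z_cases m y with h | h <;> rw [h]
  linarith

theorem floor_fract_Z (m : ℕ) (y : ℝ) :
    ⌊(2 : ℝ) ^ m * Z m y⌋ = ⌊(2 : ℝ) ^ m * y⌋ ∧ Int.fract (2 ^ m * Z m y) < 1 / 2 := by
  unfold Z
  split_ifs with h
  · exact ⟨rfl, h⟩
  · have h1 : (2 : ℝ) ^ m * (y - 1 / 2 ^ (m + 1)) = 2 ^ m * y - 1 / 2 := by
      rw [pow_succ]
      field_simp
    have h2 := Int.floor_add_fract ((2 : ℝ) ^ m * y)
    have h3 := Int.fract_lt_one ((2 : ℝ) ^ m * y)
    rw [not_lt] at h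
    have h4 : ⌊(2 : ℝ) ^ m * y - 1 / 2⌋ = ⌊(2 : ℝ) ^ m * y⌋ := by
      rw [Int.floor_eq_iff]
      constructor <;> linarith
    rw [h1]
    refine ⟨h4, ?_⟩
    have h5 := Int.self_sub_floor ((2 : ℝ) ^ m * y - 1 / 2)
    rw [← h5, h4]
    linarith

/-- coarser floors do not change -/
theorem floor_Z {n m : ℕ} (h : n ≤ m) (y : ℝ) : ⌊(2 : ℝ) ^ n * Z m y⌋ = ⌊(2 : ℝ) ^ n * y⌋ := by
  have key : ∀ z : ℝ, ⌊(2 : ℝ) ^ n * z⌋ = ⌊(2 : ℝ) ^ m * z⌋ / ((2 ^ (m - n) : ℕ) : ℤ) := by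
    intro z
    rw [← Int.floor_div_natCast]
    congr 1
    push_cast
    rw [eq_div_iff (by positivity), mul_right_comm, ← pow_add, Nat.add_sub_cancel' h]
  rw [key, key, (floor_fract_Z m y).1]

/-- `sin (2 π 2 ^ n y) ≥ 0` from the fractional part -/
theorem sin_nonneg_of_fract {t : ℝ} (h : Int.fract t ≤ 1 / 2) : 0 ≤ Real.sin (2 * Real.pi * t) := by
  have h1 : Real.sin (2 * Real.pi * t) = Real.sin (2 * Real.pi * Int.fract t) := by
    have h2 : 2 * Real.pi * t = 2 * Real.pi * Int.fract t + ⌊t⌋ * (2 * Real.pi) := by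
      have := Int.floor_add_fract t
      linear_combination (2 * Real.pi) * (-this)
    rw [h2, Real.sin_add_int_mul_two_pi]
  rw [h1]
  have h3 := Int.fract_nonneg t
  have hpi := Real.pi_pos
  refine Real.sin_nonneg_of_nonneg_of_le_pi (by positivity) ?_
  nlinarith

theorem fract_of_sin_nonneg {t : ℝ} (h : 0 ≤ Real.sin (2 * Real.pi * t)) : Int.fract t ≤ 1 / 2 := by
  have h1 : Real.sin (2 * Real.pi * t) = Real.sin (2 * Real.pi * Int.fract t) := by
    have h2 : 2 * Real.pi * t = 2 * Real.pi * Int.fract t + ⌊t⌋ * (2 * Real.pi) := by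
      have := Int.floor_add_fract t
      linear_combination (2 * Real.pi) * (-this)
    rw [h2, Real.sin_add_int_mul_two_pi]
  rw [h1] at h
  by_contra hcon
  rw [not_le] at hcon
  have h3 := Int.fract_lt_one t
  have hpi := Real.pi_pos
  have h4 : Real.sin (2 * Real.pi * Int.fract t) = - Real.sin (2 * Real.pi * Int.fract t - Real.pi) := by
    rw [Real.sin_sub_pi, neg_neg]
  have h5 : 0 < Real.sin (2 * Real.pi * Int.fract t - Real.pi) := by
    refine Real.sin_pos_of_pos_of_lt_pi ?_ ?_ <;> nlinarith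
  linarith

section

variable (m : ℕ → ℕ)

/-- the first `k` digits of the set are killed -/
noncomputable def Ps : ℕ → ℝ → ℝ
  | 0, x => x
  | k + 1, x => Z (m k) (Ps k x)

theorem measurable_Ps (k : ℕ) : Measurable (Ps m k) := by
  induction k with
  | zero => exact measurable_id
  | succ k ih => exact (measurable_Z (m k)).comp ih

theorem Ps_succ_le (k : ℕ) (x : ℝ) : Ps m (k + 1) x ≤ Ps m k x := Z_le _ _

theorem le_Ps_succ (k : ℕ) (x : ℝ) : Ps m k x - 1 / 2 ^ (m k + 1) ≤ Ps m (k + 1) x := le_Z _ _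

theorem Ps_anti (x : ℝ) : Antitone fun k => Ps m k x := antitone_nat_of_succ_le fun k => Ps_succ_le m k x

/-- the pushforward increases measures of sets at most by the factor `2 ^ k` -/
theorem volume_Ps_preimage (k : ℕ) (t : Set ℝ) : volume (Ps m k ⁻¹' t) ≤ 2 ^ k * volume t := by
  induction k generalizing t with
  | zero =>
    have : Ps m 0 ⁻¹' t = t := by ext x; rfl
    rw [this]
    simp
  | succ k ih =>
    have h1 : Ps m (k + 1) ⁻¹' t ⊆
        Ps m k ⁻¹' (t ∪ (fun y => y + (-(1 / 2 ^ (m k + 1)))) ⁻¹' t) := by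
      intro x hx
      rw [mem_preimage] at hx ⊢
      rcases Z_cases (m k) (Ps m k x) with h | h
      · left
        have : Ps m (k + 1) x = Ps m k x := h
        rwa [this] at hx
      · right
        have : Ps m (k + 1) x = Ps m k x - 1 / 2 ^ (m k + 1) := h
        rw [this] at hx
        rw [mem_preimage, ← sub_eq_add_neg]
        exact hx
    calc volume (Ps m (k + 1) ⁻¹' t)
        ≤ volume (Ps m k ⁻¹' (t ∪ (fun y => y + (-(1 / 2 ^ (m k + 1)))) ⁻¹' t)) := measure_mono h1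
      _ ≤ 2 ^ k * volume (t ∪ (fun y => y + (-(1 / 2 ^ (m k + 1)))) ⁻¹' t) := ih _
      _ ≤ 2 ^ k * (volume t + volume ((fun y => y + (-(1 / 2 ^ (m k + 1)))) ⁻¹' t)) := by
          gcongr
          exact measure_union_le _ _
      _ = 2 ^ (k + 1) * volume t := by
          rw [measure_preimage_add_right]
          ring

variable (hm : StrictMono m)

include hm

/-- coarser floors of the iterates do not change -/
theorem floor_Ps {n j k : ℕ} (hn : n ≤ m j) (hjk : j ≤ k) (x : ℝ) :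
    ⌊(2 : ℝ) ^ n * Ps m k x⌋ = ⌊(2 : ℝ) ^ n * Ps m j x⌋ := by
  induction k, hjk using Nat.le_induction with
  | base => rfl
  | succ k hk ih =>
    rw [← ih]
    exact floor_Z (hn.trans (hm.monotone hk)) _

theorem fract_Ps {j k : ℕ} (hjk : j < k) (x : ℝ) : Int.fract ((2 : ℝ) ^ m j * Ps m k x) < 1 / 2 := by
  -- both floors, at `m j` and at `m j + 1`, are those of the step `j + 1`
  have h1 : ⌊(2 : ℝ) ^ (m j + 1) * Ps m k x⌋ = ⌊(2 : ℝ) ^ (m j + 1) * Ps m (j + 1) x⌋ := by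
    refine floor_Ps m hm ?_ hjk x
    exact hm (Nat.lt_succ_self j)
  have h2 : ⌊(2 : ℝ) ^ m j * Ps m k x⌋ = ⌊(2 : ℝ) ^ m j * Ps m (j + 1) x⌋ :=
    floor_Ps m hm (hm.monotone (Nat.le_succ j)) hjk x
  have h3 := (floor_fract_Z (m j) (Ps m j x)).2
  have h3' : Int.fract ((2 : ℝ) ^ m j * Ps m (j + 1) x) < 1 / 2 := h3
  rw [← Int.self_sub_floor] at h3' ⊢
  rw [h2]
  -- `⌊2^(m+1) y⌋ = 2 ⌊2^m y⌋`
  have h4 : ⌊(2 : ℝ) ^ (m j + 1) * Ps m (j + 1) x⌋ = 2 * ⌊(2 : ℝ) ^ m j * Ps m (j + 1) x⌋ := by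
    rw [Int.floor_eq_iff]
    have h5 := Int.floor_le ((2 : ℝ) ^ m j * Ps m (j + 1) x)
    push_cast
    rw [pow_succ]
    constructor <;> linarith
  have h6 := Int.lt_floor_add_one ((2 : ℝ) ^ (m j + 1) * Ps m k x)
  rw [h1, h4, pow_succ] at h6
  push_cast at h6
  linarith

theorem half_le (k : ℕ) : (1 : ℝ) / 2 ^ (m k + 1) ≤ 1 / 2 ^ m k - 1 / 2 ^ m (k + 1) := by
  have h1 : m k + 1 ≤ m (k + 1) := hm (Nat.lt_succ_self k)
  have h2 : (1 : ℝ) / 2 ^ m (k + 1) ≤ 1 / 2 ^ (m k + 1) :=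
    one_div_le_one_div_of_le (by positivity) (pow_le_pow_right₀ (by norm_num) h1)
  have h3 : (1 : ℝ) / 2 ^ (m k + 1) = 1 / 2 ^ m k / 2 := by
    rw [pow_succ]
    field_simp
  linarith

theorem Ps_mono' (x : ℝ) : Monotone fun k => Ps m k x - 1 / 2 ^ m k := by
  refine monotone_nat_of_le_succ fun k => ?_
  have h1 := half_le m hm k
  have h2 := le_Ps_succ m k x
  linarith

theorem Ps_bdd (x : ℝ) : BddBelow (range fun k => Ps m k x) := by
  refine ⟨x - 1, ?_⟩
  rintro _ ⟨k, rfl⟩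
  have h1 := Ps_mono' m hm x (Nat.zero_le k)
  have h2 : Ps m 0 x = x := rfl
  have h3 : (1 : ℝ) / 2 ^ m 0 ≤ 1 := by
    rw [div_le_one (by positivity)]
    exact one_le_pow₀ (by norm_num)
  have h4 : (0 : ℝ) < 1 / 2 ^ m k := by positivity
  simp only at h1
  rw [h2] at h1
  show x - 1 ≤ Ps m k x
  linarith

omit hm in
/-- the limit -/
noncomputable def Pi (x : ℝ) : ℝ := ⨅ k, Ps m k x

theorem tendsto_Ps (x : ℝ) : Tendsto (fun k => Ps m k x) atTop (𝓝 (Pi m x)) :=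
  tendsto_atTop_ciInf (Ps_anti m x) (Ps_bdd m hm x)

theorem measurable_Pi : Measurable (Pi m) :=
  measurable_of_tendsto_metrizable (fun k => measurable_Ps m k)
    (tendsto_pi_nhds.2 fun x => tendsto_Ps m hm x)

theorem Pi_le (k : ℕ) (x : ℝ) : Pi m x ≤ Ps m k x := ciInf_le (Ps_bdd m hm x) k

theorem le_Pi (k : ℕ) (x : ℝ) : Ps m k x - 1 / 2 ^ m k ≤ Pi m x := by
  refine ge_of_tendsto (tendsto_Ps m hm x) ?_
  filter_upwards [eventually_ge_atTop k] with j hj
  have h1 := Ps_mono' m hm x hj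
  simp only at h1
  have h4 : (0 : ℝ) < 1 / 2 ^ m j := by positivity
  linarith

theorem Ps_mem {x : ℝ} (hx : x ∈ Ico (0 : ℝ) 1) (k : ℕ) : Ps m k x ∈ Ico (0 : ℝ) 1 := by
  have h1 := floor_Ps m hm (n := 0) (j := 0) (k := k) (Nat.zero_le _) (Nat.zero_le _) x
  rw [pow_zero, one_mul, one_mul] at h1
  have h2 : Ps m 0 x = x := rfl
  rw [h2, Int.floor_eq_zero_iff.2 hx] at h1
  exact Int.floor_eq_zero_iff.1 h1

theorem Pi_mem {x : ℝ} (hx : x ∈ Ico (0 : ℝ) 1) : Pi m x ∈ Icc (0 : ℝ) 1 := by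
  refine ⟨ge_of_tendsto' (tendsto_Ps m hm x) fun k => (Ps_mem m hm hx k).1, ?_⟩
  exact (Pi_le m hm 0 x).trans (Ps_mem m hm hx 0).2.le

theorem sin_Pi (j : ℕ) (x : ℝ) : 0 ≤ Real.sin (2 * Real.pi * (2 ^ m j * Pi m x)) := by
  have h1 : Tendsto (fun k => Real.sin (2 * Real.pi * (2 ^ m j * Ps m k x))) atTop
      (𝓝 (Real.sin (2 * Real.pi * (2 ^ m j * Pi m x)))) := by
    have hc : Continuous fun y : ℝ => Real.sin (2 * Real.pi * (2 ^ m j * y)) := by fun_prop
    exact (hc.tendsto _).comp (tendsto_Ps m hm x)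
  refine ge_of_tendsto h1 ?_
  filter_upwards [eventually_gt_atTop j] with k hk
  exact sin_nonneg_of_fract (fract_Ps m hm hk x).le

/-- intervals -/
theorem volume_Pi_preimage (k : ℕ) {s : Set ℝ} {a b : ℝ} (hs : s ⊆ Icc a b) :
    volume (Pi m ⁻¹' s) ≤ 2 ^ k * ENNReal.ofReal (b - a + 1 / 2 ^ m k) := by
  have h1 : Pi m ⁻¹' s ⊆ Ps m k ⁻¹' (Icc a (b + 1 / 2 ^ m k)) := by
    intro x hx
    have h2 := hs hx
    have h3 := Pi_le m hm k x
    have h4 := le_Pi m hm k x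
    exact ⟨h2.1.trans h3, by linarith [h2.2]⟩
  refine (measure_mono h1).trans ((volume_Ps_preimage m k _).trans ?_)
  rw [Real.volume_Icc]
  refine le_of_eq ?_
  congr 2
  ring

end

end Pool.Agent.Q165.NU
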