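import Mathlib
import Pool.Agent.Q165.NU.AE
import Pool.Agent.Q165.NU.Psi
import Pool.Agent.Y249.SU.Bump

/-!
# The set, its measure and the normality of almost all of its points
-/

set_option autoImplicit false

open MeasureTheory Filter Topology Set
open scoped ENNReal

namespace Pool.Agent.Q165.NU

open Pool.Agent.H493R3

/-- parameters -/
structure Par (φ : ℝ → ℝ) where
  m : ℕ → ℕ
  M : ℕ → ℕ
  t : ℕ → Set ℝ
  hm : StrictMono m
  hM : StrictMono M
  hsq : ∀ k, 2 * k ≤ m k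
  hgr : ∀ k, ∀ r : ℝ, 0 < r → r < 1 / 2 ^ m k → 2 ^ (k + 3) * r ≤ φ r
  ht : ∀ k, volume (t k) ≤ ENNReal.ofReal (1 / 4 ^ k)
  hex : ∀ k, ∀ y ∈ Ico (0 : ℝ) 1, y ∉ t k → ∀ N, M k ≤ N → ∀ b h, 2 ≤ b → b ≤ k + 2 → 1 ≤ h →
    h ≤ k + 2 → Sn b h N y < 1 / (k + 1)
  hlip : ∀ k, ∀ b h N : ℕ, 2 ≤ b → b ≤ k + 2 → 1 ≤ h → h ≤ k + 2 → N ≤ M (k + 1) →
    2 * Real.pi * h * (b : ℝ) ^ N * (1 / 2 ^ m k) ≤ 1 / (k + 1)

theorem exists_par (φ : ℝ → ℝ) (hφ : ∀ r : ℝ, 0 < r → 0 < φ r)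
    (hr : Tendsto (fun r : ℝ => r / φ r) (𝓝[>] (0 : ℝ)) (𝓝 0)) : Nonempty (Par φ) := by
  -- growth
  have h1 : ∀ k : ℕ, ∃ a : ℕ, ∀ r : ℝ, 0 < r → r < 1 / 2 ^ a → 2 ^ (k + 3) * r ≤ φ r := by
    intro k
    have h2 : ∀ᶠ r in 𝓝[>] (0 : ℝ), r / φ r < 1 / 2 ^ (k + 3) :=
      hr.eventually (gt_mem_nhds (by positivity))
    rw [eventually_nhdsWithin_iff, Metric.eventually_nhds_iff] at h2
    obtain ⟨δ, hδ, h2⟩ := h2
    obtain ⟨a, ha⟩ := exists_pow_lt_of_lt_one hδ (by norm_num : (1 / 2 : ℝ) < 1)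
    refine ⟨a, fun r hr0 hr1 => ?_⟩
    have h3 : r < δ := by
      rw [one_div_pow] at ha
      exact hr1.trans ha
    have h4 := h2 (y := r) (by rw [Real.dist_eq, sub_zero, abs_of_pos hr0]; exact h3) hr0
    rw [div_lt_div_iff₀ (hφ r hr0) (by positivity)] at h4
    linarith
  choose ga hga using h1
  have h2 : ∀ k : ℕ, ∃ (t : Set ℝ) (M : ℕ), volume t ≤ ENNReal.ofReal (1 / 4 ^ k) ∧
      ∀ y ∈ Ico (0 : ℝ) 1, y ∉ t → ∀ N, M ≤ N → ∀ b h, 2 ≤ b → b ≤ k + 2 → 1 ≤ h → h ≤ k + 2 →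
        Sn b h N y < 1 / (k + 1) := fun k =>
    exceptional k (1 / 4 ^ k) (1 / (k + 1)) (by positivity) (by positivity)
  choose t M0 ht hex using h2
  set M : ℕ → ℕ := fun k => ∑ i ∈ Finset.range (k + 1), (M0 i + 1) with hMdef
  have hM : StrictMono M := by
    refine strictMono_nat_of_lt_succ fun k => ?_
    simp only [hMdef]
    rw [Finset.sum_range_succ _ (k + 1)]
    omega
  have hM0 : ∀ k, M0 k ≤ M k := by
    intro k
    simp only [hMdef]
    rw [Finset.sum_range_succ]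
    omega
  have h3 : ∀ k : ℕ, ∃ a : ℕ, 2 * Real.pi * (k + 2) * ((k : ℝ) + 2) ^ M (k + 1) * (1 / 2 ^ a) ≤
      1 / (k + 1) := by
    intro k
    have h4 : Tendsto (fun a : ℕ => 2 * Real.pi * (k + 2) * ((k : ℝ) + 2) ^ M (k + 1) * (1 / 2 : ℝ) ^ a)
        atTop (𝓝 (2 * Real.pi * (k + 2) * ((k : ℝ) + 2) ^ M (k + 1) * 0)) :=
      (tendsto_pow_atTop_nhds_zero_of_lt_one (by norm_num) (by norm_num)).const_mul _
    rw [mul_zero] at h4
    have h5 : (0 : ℝ) < 1 / (k + 1) := by positivity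
    obtain ⟨a, ha⟩ := (h4.eventually (gt_mem_nhds h5)).exists
    refine ⟨a, ?_⟩
    rw [← one_div_pow]
    exact ha.le
  choose gb hgb using h3
  set m : ℕ → ℕ := fun k => ∑ i ∈ Finset.range (k + 1), (ga i + gb i + 2 * i + 1) with hmdef
  have hm : StrictMono m := by
    refine strictMono_nat_of_lt_succ fun k => ?_
    simp only [hmdef]
    rw [Finset.sum_range_succ _ (k + 1)]
    omega
  have hmk : ∀ k, ga k + gb k + 2 * k + 1 ≤ m k := by
    intro k
    simp only [hmdef]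
    rw [Finset.sum_range_succ]
    omega
  refine ⟨⟨m, M, t, hm, hM, fun k => ?_, fun k r hr0 hr1 => ?_, ht, fun k y hy hyt N hN => ?_,
    fun k b h N hb1 hb2 hh1 hh2 hN => ?_⟩⟩
  · have := hmk k
    omega
  · refine hga k r hr0 (hr1.trans_le ?_)
    refine one_div_le_one_div_of_le (by positivity) (pow_le_pow_right₀ (by norm_num) ?_)
    have := hmk k
    omega
  · exact hex k y hy hyt N ((hM0 k).trans hN)
  · refine le_trans ?_ (hgb k)
    have hbr : (b : ℝ) ≤ k + 2 := by exact_mod_cast hb2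
    have hhr : (h : ℝ) ≤ k + 2 := by exact_mod_cast hh2
    have hb0 : (0 : ℝ) ≤ b := Nat.cast_nonneg b
    have hh0 : (0 : ℝ) ≤ h := Nat.cast_nonneg h
    have hk1 : (1 : ℝ) ≤ (k : ℝ) + 2 := by
      have : (0 : ℝ) ≤ k := Nat.cast_nonneg k
      linarith
    have h4 : (b : ℝ) ^ N ≤ ((k : ℝ) + 2) ^ M (k + 1) :=
      (pow_le_pow_left₀ hb0 hbr N).trans (pow_le_pow_right₀ hk1 hN)
    have h5 : (1 : ℝ) / 2 ^ m k ≤ 1 / 2 ^ gb k := by
      refine one_div_le_one_div_of_le (by positivity) (pow_le_pow_right₀ (by norm_num) ?_)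
      have := hmk k
      omega
    have hpi := Real.pi_pos
    gcongr

section

variable {φ : ℝ → ℝ} (p : Par φ)

/-- almost all points satisfy Weyl's criterion in all bases -/
theorem ae_normal : ∀ᵐ x ∂(volume.restrict (Ico (0 : ℝ) 1)), ∀ b h : ℕ, 2 ≤ b → 1 ≤ h →
    Tendsto (fun N : ℕ => Sn b h N (Pi p.m x)) atTop (𝓝 0) := by
  have h1 : ∑' k, volume (Ps p.m k ⁻¹' p.t k) ≠ ∞ := by
    have h2 : ∀ k, volume (Ps p.m k ⁻¹' p.t k) ≤ ENNReal.ofReal ((1 / 2) ^ k) := by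
      intro k
      refine (volume_Ps_preimage p.m k _).trans ?_
      calc (2 : ℝ≥0∞) ^ k * volume (p.t k) ≤ 2 ^ k * ENNReal.ofReal (1 / 4 ^ k) := by
            gcongr
            exact p.ht k
        _ = ENNReal.ofReal ((1 / 2) ^ k) := by
            have h3 : (2 : ℝ≥0∞) ^ k = ENNReal.ofReal (2 ^ k) := by
              rw [ENNReal.ofReal_pow (by norm_num)]
              norm_num
            rw [h3, ← ENNReal.ofReal_mul (by positivity)]
            congr 1
            rw [show (4 : ℝ) = 2 * 2 by norm_num, mul_pow, one_div_pow]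
            field_simp
    refine ne_top_of_le_ne_top ?_ (ENNReal.tsum_le_tsum h2)
    rw [← ENNReal.ofReal_tsum_of_nonneg (fun k => by positivity)
      (summable_geometric_of_lt_one (by norm_num) (by norm_num))]
    exact ENNReal.ofReal_ne_top
  have h2 := ae_finite_setOfPred_mem h1
  rw [ae_restrict_iff' measurableSet_Ico]
  filter_upwards [h2] with x hx hx01 b h hb hh
  obtain ⟨K, hK⟩ := hx.bddAbove
  have hK' : ∀ k, K < k → Ps p.m k x ∉ p.t k := by
    intro k hk hkt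
    exact absurd (hK hkt) (not_le.2 hk)
  -- estimate in the window
  have hwin : ∀ k, K < k → b ≤ k + 2 → h ≤ k + 2 → ∀ N, p.M k ≤ N → N ≤ p.M (k + 1) →
      Sn b h N (Pi p.m x) ≤ 2 / (k + 1) := by
    intro k hk hbk hhk N hN1 hN2
    have h3 := p.hex k _ (Ps_mem p.m p.hm hx01 k) (hK' k hk) N hN1 b h hb hbk hh hhk
    have h4 := Sn_lip b h N (by omega) (Pi p.m x) (Ps p.m k x)
    have h5 := p.hlip k b h N hb hbk hh hhk hN2
    have h6 : |Pi p.m x - Ps p.m k x| ≤ 1 / 2 ^ p.m k := by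
      have h7 := Pi_le p.m p.hm k x
      have h8 := le_Pi p.m p.hm k x
      rw [abs_le]
      constructor
      · linarith
      · have : (0 : ℝ) < 1 / 2 ^ p.m k := by positivity
        linarith
    have hpi := Real.pi_pos
    have h9 : 2 * Real.pi * h * (b : ℝ) ^ N * |Pi p.m x - Ps p.m k x| ≤
        2 * Real.pi * h * (b : ℝ) ^ N * (1 / 2 ^ p.m k) := by
      gcongr
    have h10 : (2 : ℝ) / (k + 1) = 1 / (k + 1) + 1 / (k + 1) := by ring
    linarith
  -- the window index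
  rw [Metric.tendsto_atTop]
  intro ε hε
  obtain ⟨K1, hK1⟩ := exists_nat_gt (2 / ε)
  set k0 : ℕ := K + 1 + b + h + K1 with hk0
  refine ⟨p.M k0, fun N hN => ?_⟩
  rw [Real.dist_eq, sub_zero, abs_of_nonneg (Sn_nonneg _ _ _ _)]
  -- largest `k` with `M k ≤ N`
  have hex : ∃ k, N < p.M k := ⟨N + 1, (Nat.lt_succ_self N).trans_le (p.hM.le_apply)⟩
  set k1 := Nat.find hex with hk1
  have hk1N : N < p.M k1 := Nat.find_spec hex
  have hk1k0 : k0 < k1 := by
    by_contra hcon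
    exact absurd (p.hM.monotone (not_lt.1 hcon)) (not_le.2 (hN.trans_lt hk1N))
  obtain ⟨k, hk⟩ : ∃ k, k1 = k + 1 := ⟨k1 - 1, by omega⟩
  have hkN : p.M k ≤ N := by
    by_contra hcon
    have := Nat.find_min' hex (not_le.1 hcon)
    omega
  have h3 := hwin k (by omega) (by omega) (by omega) N hkN (by rw [← hk]; exact hk1N.le)
  refine h3.trans_lt ?_
  have h4 : (K1 : ℝ) < k + 1 := by
    have : K1 < k + 1 := by omega
    exact_mod_cast this
  rw [div_lt_iff₀ (by positivity)]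
  rw [div_lt_iff₀ hε] at hK1
  nlinarith

/-- the measure -/
noncomputable def mu : Measure ℝ := (volume.restrict (Ico (0 : ℝ) 1)).map (Pi p.m)

theorem mu_le (k : ℕ) {s : Set ℝ} {a b : ℝ} (hs : s ⊆ Icc a b) :
    mu p s ≤ 2 ^ k * ENNReal.ofReal (b - a + 1 / 2 ^ p.m k) := by
  refine (measure_mono hs).trans ?_
  unfold mu
  rw [Measure.map_apply (measurable_Pi p.m p.hm) measurableSet_Icc]
  exact (Measure.restrict_apply_le _ _).trans (volume_Pi_preimage p.m p.hm k (le_refl _))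

theorem mu_singleton (a : ℝ) : mu p {a} = 0 := by
  have h1 : ∀ k : ℕ, mu p {a} ≤ ENNReal.ofReal ((1 / 2) ^ k) := by
    intro k
    refine (mu_le p k (a := a) (b := a) (by simp)).trans ?_
    have h3 : (2 : ℝ≥0∞) ^ k = ENNReal.ofReal (2 ^ k) := by
      rw [ENNReal.ofReal_pow (by norm_num)]
      norm_num
    rw [h3, ← ENNReal.ofReal_mul (by positivity)]
    refine ENNReal.ofReal_le_ofReal ?_
    have h4 : (1 : ℝ) / 2 ^ p.m k ≤ 1 / 2 ^ (2 * k) :=
      one_div_le_one_div_of_le (by positivity) (pow_le_pow_right₀ (by norm_num) (p.hsq k))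
    calc (2 : ℝ) ^ k * (a - a + 1 / 2 ^ p.m k) = 2 ^ k * (1 / 2 ^ p.m k) := by ring
      _ ≤ 2 ^ k * (1 / 2 ^ (2 * k)) := by gcongr
      _ = (1 / 2) ^ k := by
          rw [pow_mul', sq, one_div_pow]
          field_simp
  have h2 : Tendsto (fun k : ℕ => ENNReal.ofReal ((1 / 2 : ℝ) ^ k)) atTop (𝓝 0) := by
    have := ENNReal.tendsto_ofReal (tendsto_pow_atTop_nhds_zero_of_lt_one
      (by norm_num : (0 : ℝ) ≤ 1 / 2) (by norm_num))
    rwa [ENNReal.ofReal_zero] at this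
  exact le_antisymm (ge_of_tendsto' h2 h1) bot_le

theorem mu_le_mk : mu p ≤ Measure.mkMetric (fun r : ℝ≥0∞ => ENNReal.ofReal (φ r.toReal)) := by
  refine Measure.le_mkMetric _ _ (ENNReal.ofReal (1 / 2 ^ (p.m 0 + 1)))
    (ENNReal.ofReal_pos.2 (by positivity)) fun s hs => ?_
  rcases s.eq_empty_or_nonempty with rfl | ⟨x0, hx0⟩
  · simp
  have hne : Metric.ediam s ≠ ∞ := ne_top_of_le_ne_top ENNReal.ofReal_ne_top hs
  set d : ℝ := (Metric.ediam s).toReal with hd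
  have hd0 : 0 ≤ d := ENNReal.toReal_nonneg
  have hd1 : d ≤ 1 / 2 ^ (p.m 0 + 1) := by
    rw [hd]
    exact ENNReal.toReal_le_of_le_ofReal (by positivity) hs
  have hsub : s ⊆ Icc (x0 - d) (x0 + d) := by
    intro y hy
    have h1 : dist y x0 ≤ d := by
      have h2 := Metric.edist_le_ediam_of_mem hy hx0
      rw [edist_dist] at h2
      rw [hd]
      exact (ENNReal.ofReal_le_iff_le_toReal hne).1 h2
    rw [Real.dist_eq, abs_le] at h1
    constructor <;> linarith [h1.1, h1.2]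
  rcases hd0.eq_or_lt with h0 | h0
  · have h1 : s ⊆ {x0} := by
      intro y hy
      have := hsub hy
      rw [← h0] at this
      rw [sub_zero, add_zero, Icc_self] at this
      exact this
    refine (measure_mono h1).trans ?_
    rw [mu_singleton]
    exact bot_le
  · have hex : ∃ k, (1 : ℝ) / 2 ^ p.m k ≤ d := by
      obtain ⟨k, hk⟩ := exists_pow_lt_of_lt_one h0 (by norm_num : (1 / 2 : ℝ) < 1)
      refine ⟨k, le_trans ?_ hk.le⟩
      rw [one_div_pow]
      exact one_div_le_one_div_of_le (by positivity)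
        (pow_le_pow_right₀ (by norm_num) (by have := p.hsq k; omega))
    set k1 := Nat.find hex with hk1
    have hk1d : (1 : ℝ) / 2 ^ p.m k1 ≤ d := Nat.find_spec hex
    have hk10 : k1 ≠ 0 := by
      intro h
      rw [h] at hk1d
      have h2 := hk1d.trans hd1
      rw [pow_succ] at h2
      have h3 : (0 : ℝ) < 1 / 2 ^ p.m 0 := by positivity
      have h4 : (1 : ℝ) / (2 ^ p.m 0 * 2) = 1 / 2 ^ p.m 0 / 2 := by field_simp
      rw [h4] at h2
      linarith
    obtain ⟨k, hk⟩ : ∃ k, k1 = k + 1 := ⟨k1 - 1, by omega⟩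
    have hkd : d < 1 / 2 ^ p.m k := by
      by_contra hcon
      have := Nat.find_min' hex (not_lt.1 hcon)
      omega
    have h1 := p.hgr k d h0 hkd
    refine (mu_le p k1 hsub).trans ?_
    have h3 : (2 : ℝ≥0∞) ^ k1 = ENNReal.ofReal (2 ^ k1) := by
      rw [ENNReal.ofReal_pow (by norm_num)]
      norm_num
    rw [h3, ← ENNReal.ofReal_mul (by positivity)]
    refine ENNReal.ofReal_le_ofReal ?_
    show _ ≤ φ d
    refine le_trans ?_ h1
    rw [hk] at hk1d ⊢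
    have h5 : (0 : ℝ) < 2 ^ (k + 1) := by positivity
    have h6 : (2 : ℝ) ^ (k + 3) = 2 ^ (k + 1) * 4 := by ring
    rw [h6, mul_assoc]
    refine mul_le_mul_of_nonneg_left ?_ h5.le
    linarith

/-- the closed set -/
def KK : Set ℝ := {y | y ∈ Icc (0 : ℝ) 1 ∧ ∀ j, 0 ≤ Real.sin (2 * Real.pi * (2 ^ p.m j * y))}

theorem isClosed_KK : IsClosed (KK p) := by
  have h1 : KK p = Icc (0 : ℝ) 1 ∩ ⋂ j, {y | 0 ≤ Real.sin (2 * Real.pi * (2 ^ p.m j * y))} := by
    ext y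
    simp only [KK, mem_ofPred_eq, mem_inter_iff, mem_iInter]
  rw [h1]
  refine isClosed_Icc.inter (isClosed_iInter fun j => ?_)
  exact isClosed_le continuous_const (by fun_prop)

open Pool.Agent.Y249.SU in
theorem lam_add_int (γ : ℤ → ℂ) (x : ℝ) (n : ℤ) : lam γ (x + n) = lam γ x := by
  unfold lam
  congr 1
  ext j
  have : E j (n : ℝ) = 1 := by
    rw [E]
    have : (2 * (Real.pi : ℂ) * Complex.I * (j : ℂ) * ((n : ℝ) : ℂ)) =
        ((j * n : ℤ) : ℂ) * (2 * Real.pi * Complex.I) := by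
      push_cast
      ring
    rw [this, Complex.exp_int_mul_two_pi_mul_I]
  rw [E_add, this, mul_one]

open Pool.Agent.Y249.SU in
theorem unique_KK {c : ℤ → ℂ} (hc : ∀ x : ℝ, (∀ n : ℤ, x + (n : ℝ) ∉ KK p) →
      Tendsto (fun N : ℕ => S c N x) atTop (𝓝 0)) (n : ℤ) : c n = 0 := by
  obtain ⟨γ, hγ, hγ0, hlam⟩ := exists_gamma
  have hM : Tendsto (fun k : ℕ => ((2 : ℤ) ^ p.m k)) atTop atTop :=
    (tendsto_pow_atTop_atTop_of_one_lt (by norm_num)).comp p.hm.tendsto_atTop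
  have hK : ∀ x ∈ KK p, ∀ k, lam γ (((2 : ℤ) ^ p.m k : ℤ) * x) = 0 := by
    intro x hx k
    have h1 := fract_of_sin_nonneg (hx.2 k)
    have h2 : (((2 : ℤ) ^ p.m k : ℤ) : ℝ) * x = Int.fract ((2 : ℝ) ^ p.m k * x) +
        (⌊(2 : ℝ) ^ p.m k * x⌋ : ℤ) := by
      push_cast
      rw [add_comm]
      exact (Int.floor_add_fract _).symm
    rw [h2, lam_add_int]
    exact hlam _ ⟨Int.fract_nonneg _, h1⟩
  -- an interval free of translates
  have hint : ∀ x ∈ Ioo (1 / 2 ^ (p.m 0 + 1) : ℝ) (1 / 2 ^ p.m 0), ∀ n : ℤ, x + (n : ℝ) ∉ KK p := by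
    intro x hx n hn
    have h1 := fract_of_sin_nonneg (hn.2 0)
    have h2 : (2 : ℝ) ^ p.m 0 * (x + n) = 2 ^ p.m 0 * x + ((2 ^ p.m 0 * n : ℤ) : ℝ) := by
      push_cast
      ring
    rw [h2, Int.fract_add_intCast] at h1
    have h3 : (0 : ℝ) < 2 ^ p.m 0 := by positivity
    have h4 : 1 / 2 < (2 : ℝ) ^ p.m 0 * x := by
      have := mul_lt_mul_of_pos_left hx.1 h3
      rw [pow_succ] at this
      refine lt_of_le_of_lt (le_of_eq ?_) this
      field_simp
    have h5 : (2 : ℝ) ^ p.m 0 * x < 1 := by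
      have := mul_lt_mul_of_pos_left hx.2 h3
      refine lt_of_lt_of_le this (le_of_eq ?_)
      field_simp
    rw [Int.fract_eq_self.2 ⟨by linarith, h5⟩] at h1
    linarith
  refine uniqueness hM hγ hγ0 hK ?_ hint hc n
  refine one_div_lt_one_div_of_lt (by positivity) ?_
  exact pow_lt_pow_right₀ (by norm_num) (Nat.lt_succ_self _)

end

end Pool.Agent.Q165.NU
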